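import Mathlib
import Pool.Agent.H84.WijC

set_option autoImplicit false

open Pool.Agent.H84.WijDefs

namespace Pool.Agent.Results.MP_091b66_gt.Full

theorem result :
    (∀ (X : Type) [MetricSpace X], T3Space (Hyp X)) ∧
    (∀ (X : Type) [MetricSpace X], Pseudocomplete X → Pseudocomplete (Hyp X)) ∧
    (∀ (X : Type) [MetricSpace X], Subcompact X → Subcompact (Hyp X)) ∧
    (∃ (X : Type) (_ : MetricSpace X), BaseCompact X ∧ ¬ BaseCompact (Hyp X)) :=
  ⟨fun _ _ => Pool.Agent.H84.WijA.t3, fun _ _ => Pool.Agent.H84.WijA.partA,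
    fun _ _ => Pool.Agent.H84.WijA.partB,
    ⟨Pool.Agent.H84.WijC.XX, inferInstance, Pool.Agent.H84.WijC.baseCompact,
      Pool.Agent.H84.WijC.not_baseCompact⟩⟩

end Pool.Agent.Results.MP_091b66_gt.Full
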